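import Pool.Agent.X154.ConeI

set_option autoImplicit false

/-!
Q1 of `MP_34cb49_gt` is false: on planes with arbitrarily small positive curvature there are geodesic
nets with exactly three unbalanced vertices and three balanced vertices.

The planes are flat cones `|z|^{2(β-1)} |dz|²` with total curvature `2π(1-β)`, smoothed near the apex.
The net is the union of two Fermat tripods with the same three (unbalanced) ends, one on each side of
the apex; a leg of the one crosses a leg of the other, and the crossing is the third balanced vertex.
-/

namespace Pool.Agent.Results.MP_34cb49_gt.DoubleTripod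

open Pool.Agent.X154.Cone
open scoped ContDiff

/-- For every `ε > 0` there is a smooth metric `e^{2u} |dz|²` on the plane with `∫ K⁺ dA < ε` and a
geodesic net in it (a simple graph) with six vertices, exactly three of which are unbalanced. -/
theorem _root_.Pool.Agent.Results.MP_34cb49_gt.DoubleTripod.result :
    ∀ ε : ℝ, 0 < ε → ∃ u : ℂ → ℝ, ContDiff ℝ ∞ u ∧ posCurv u < ENNReal.ofReal ε ∧
      ∃ N : GeodesicNet u, N.unb.card = 3 ∧ N.n = 6 ∧ N.IsSimple := by
  intro ε hε
  obtain ⟨β, h1, h2⟩ := main hε
  exact ⟨uu β, uu_contDiff β, h1, h2⟩

end Pool.Agent.Results.MP_34cb49_gt.DoubleTripod
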